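import Pool.Agent.R793.MR.Stm

/-!
# MR-C1 (helper359): a five-dimensional quadratic form with positive sum, characteristic two
-/

set_option autoImplicit false
set_option linter.unusedVariables false
set_option linter.unusedSectionVars false

open Finset

namespace Pool.Agent.R359.MR

section Abs

variable {F V : Type} [Field F] [Fintype F] [DecidableEq F] [CharP F 2] [AddCommGroup V]
  [Module F V] [Fintype V] [DecidableEq V]

/-- A quadratic form with its polar form and an additive character. -/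
structure QD (Q : V → F) (B : V →ₗ[F] V →ₗ[F] F) (χ : F → ℤ) : Prop where
  qadd : ∀ v w, Q (v + w) = Q v + Q w + B v w
  qsmul : ∀ (f : F) (v : V), Q (f • v) = f ^ 2 * Q v
  alt : ∀ v, B v v = 0
  pm : ∀ x, χ x = 1 ∨ χ x = -1
  cadd : ∀ x y, χ (x + y) = χ x * χ y
  neg : ∃ x, χ x = -1

/-- The sum of the character over the values. -/
noncomputable def SS (Q : V → F) (χ : F → ℤ) : ℤ := ∑ v, χ (Q v)

variable {Q : V → F} {B : V →ₗ[F] V →ₗ[F] F} {χ : F → ℤ}

lemma QD.symm (h : QD Q B χ) (v w : V) : B v w = B w v := by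
  have h1 := h.qadd v w
  have h2 := h.qadd w v
  rw [add_comm w v] at h2
  linear_combination h2 - h1

lemma QD.zero (h : QD Q B χ) : Q 0 = 0 := by
  have := h.qsmul 0 0
  simpa using this

lemma QD.chi0 (h : QD Q B χ) : χ 0 = 1 := by
  have h1 := h.cadd 0 0
  rw [add_zero] at h1
  rcases h.pm 0 with h2 | h2
  · exact h2
  · rw [h2] at h1; norm_num at h1

lemma QD.sum0 (h : QD Q B χ) : ∑ f : F, χ f = 0 := by
  obtain ⟨x, hx⟩ := h.neg
  have h1 : ∑ f : F, χ (f + x) = ∑ f : F, χ f :=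
    Fintype.sum_equiv (Equiv.addRight x) _ _ (fun f => rfl)
  have h2 : ∑ f : F, χ (f + x) = - ∑ f : F, χ f := by
    rw [← Finset.sum_neg_distrib]
    refine Finset.sum_congr rfl fun f _ => ?_
    rw [h.cadd, hx]; ring
  linarith

lemma QD.summul (h : QD Q B χ) (a : F) :
    ∑ f : F, χ (f * a) = if a = 0 then (Fintype.card F : ℤ) else 0 := by
  split_ifs with ha
  · simp [ha, h.chi0]
  · have h1 : ∑ f : F, χ (f * a) = ∑ f : F, χ f :=
      Fintype.sum_equiv (Equiv.mulRight₀ a ha) _ _ (fun f => rfl)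
    rw [h1, h.sum0]

lemma sq_bij : Function.Bijective (fun f : F => f ^ 2) := by
  have hinj : Function.Injective (fun f : F => f ^ 2) := by
    intro a b hab
    have h1 : (a - b) ^ 2 = 0 := by
      have h2 : (2 : F) = 0 := CharTwo.two_eq_zero
      have h3 : a ^ 2 = b ^ 2 := hab
      linear_combination h3 + (b ^ 2 - a * b) * h2
    exact sub_eq_zero.mp (pow_eq_zero_iff (two_ne_zero) |>.mp h1)
  exact Finite.injective_iff_bijective.mp hinj

lemma QD.sumsq (h : QD Q B χ) (a : F) :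
    ∑ f : F, χ (f ^ 2 * a) = if a = 0 then (Fintype.card F : ℤ) else 0 := by
  rw [← h.summul a]
  exact Fintype.sum_bijective _ sq_bij _ _ (fun f => rfl)

/-- Additive forms with nonzero sum vanish. -/
lemma QD.lem1 (h : QD Q B χ) (hB : ∀ v w, B v w = 0) (hS : 0 < SS Q χ) : ∀ v, Q v = 0 := by
  intro v
  by_contra hv
  obtain ⟨x, hx⟩ := h.neg
  obtain ⟨f, hf⟩ := (sq_bij (F := F)).2 (x / Q v)
  have hw : Q (f • v) = x := by
    rw [h.qsmul]
    have : f ^ 2 = x / Q v := hf
    rw [this, div_mul_cancel₀ _ hv]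
  have h1 : ∑ u : V, χ (Q (u + f • v)) = SS Q χ :=
    Fintype.sum_equiv (Equiv.addRight (f • v)) _ _ (fun f => rfl)
  have h2 : ∑ u : V, χ (Q (u + f • v)) = - SS Q χ := by
    rw [SS, ← Finset.sum_neg_distrib]
    refine Finset.sum_congr rfl fun u _ => ?_
    rw [h.qadd, hB, add_zero, h.cadd, hw, hx]; ring
  linarith

/-- The orthogonal complement of two vectors. -/
def orth2 (B : V →ₗ[F] V →ₗ[F] F) (a b : V) : Submodule F V :=
  LinearMap.ker (B.flip a) ⊓ LinearMap.ker (B.flip b)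

lemma mem_orth2 (a b v : V) : v ∈ orth2 B a b ↔ B v a = 0 ∧ B v b = 0 := by
  simp [orth2]

/-- The restriction to a submodule. -/
lemma QD.restrict (h : QD Q B χ) (W : Submodule F V) :
    QD (fun w : W => Q w.1) (B.domRestrict₁₂ W W) χ where
  qadd v w := h.qadd v.1 w.1
  qsmul f v := h.qsmul f v.1
  alt v := h.alt v.1
  pm := h.pm
  cadd := h.cadd
  neg := h.neg

lemma QD.split_apply (h : QD Q B χ) {a b : V} (ha : Q a = 0) (hb : Q b = 0) (hab : B a b = 1)
    (α β : F) (w : V) (hw : w ∈ orth2 B a b) : Q (α • a + β • b + w) = α * β + Q w ∧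
      B (α • a + β • b + w) b = α ∧ B (α • a + β • b + w) a = β := by
  obtain ⟨h1, h2⟩ := (mem_orth2 a b w).mp hw
  have hba : B b a = 1 := by rw [h.symm b a, hab]
  refine ⟨?_, ?_, ?_⟩
  · rw [h.qadd, h.qadd, h.qsmul, h.qsmul, ha, hb]
    simp only [map_add, map_smul, LinearMap.add_apply, LinearMap.smul_apply, smul_eq_mul]
    rw [h.symm a w, h1, h.symm b w, h2, hab]
    ring
  · simp only [map_add, map_smul, LinearMap.add_apply, LinearMap.smul_apply, smul_eq_mul]
    rw [h2, hab, h.alt b]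
    ring
  · simp only [map_add, map_smul, LinearMap.add_apply, LinearMap.smul_apply, smul_eq_mul]
    rw [h1, hba, h.alt a]
    ring

lemma QD.decomp (h : QD Q B χ) {a b : V} (hab : B a b = 1) (v : V) :
    v - B v b • a - B v a • b ∈ orth2 B a b := by
  have hba : B b a = 1 := by rw [h.symm b a, hab]
  rw [mem_orth2]
  constructor
  · simp only [map_sub, map_smul, LinearMap.sub_apply, LinearMap.smul_apply, smul_eq_mul]
    rw [h.alt a, hba]; ring
  · simp only [map_sub, map_smul, LinearMap.sub_apply, LinearMap.smul_apply, smul_eq_mul]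
    rw [h.alt b, hab]; ring

/-- Splitting off a hyperbolic plane. -/
noncomputable def QD.equiv (h : QD Q B χ) {a b : V} (ha : Q a = 0) (hb : Q b = 0)
    (hab : B a b = 1) : (F × F) × orth2 B a b ≃ V where
  toFun p := p.1.1 • a + p.1.2 • b + p.2.1
  invFun v := ((B v b, B v a), ⟨v - B v b • a - B v a • b, h.decomp hab v⟩)
  left_inv := by
    rintro ⟨⟨α, β⟩, ⟨w, hw⟩⟩
    obtain ⟨_, h1, h2⟩ := h.split_apply ha hb hab α β w hw
    simp only [Prod.mk.injEq, Subtype.mk.injEq]
    refine ⟨⟨h1, h2⟩, ?_⟩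
    rw [h1, h2]
    abel
  right_inv := by
    intro v
    simp only
    abel

lemma QD.split_card (h : QD Q B χ) {a b : V} (ha : Q a = 0) (hb : Q b = 0) (hab : B a b = 1)
    [Fintype (orth2 B a b)] :
    Fintype.card V = Fintype.card F ^ 2 * Fintype.card (orth2 B a b) := by
  rw [← Fintype.card_congr (h.equiv ha hb hab), Fintype.card_prod, Fintype.card_prod, sq]

lemma QD.split_sum (h : QD Q B χ) {a b : V} (ha : Q a = 0) (hb : Q b = 0) (hab : B a b = 1)
    [Fintype (orth2 B a b)] :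
    SS Q χ = Fintype.card F * SS (fun w : orth2 B a b => Q w.1) χ := by
  have h1 : SS Q χ = ∑ p : (F × F) × orth2 B a b, χ (p.1.1 * p.1.2) * χ (Q p.2.1) := by
    refine (Fintype.sum_equiv (h.equiv ha hb hab) _ _ fun p => ?_).symm
    obtain ⟨⟨α, β⟩, ⟨w, hw⟩⟩ := p
    have h2 := (h.split_apply ha hb hab α β w hw).1
    show χ (α * β) * χ (Q w) = χ (Q (α • a + β • b + w))
    rw [h2, h.cadd]
  rw [h1, Fintype.sum_prod_type]
  simp only [← Finset.mul_sum]
  rw [← Finset.sum_mul, Fintype.sum_prod_type_right]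
  simp only [h.summul]
  rw [Finset.sum_ite_eq' Finset.univ (0 : F) (fun _ => (Fintype.card F : ℤ))]
  simp [SS]

/-- Existence of an isotropic vector outside the radical. -/
lemma QD.lem3 (h : QD Q B χ) (hS : 0 < SS Q χ) (v0 w0 : V) (hvw : B v0 w0 ≠ 0) :
    ∃ r, Q r = 0 ∧ ∃ w, B r w ≠ 0 := by
  by_contra hcon
  push Not at hcon
  set q : ℤ := (Fintype.card F : ℤ) with hq
  set N : ℤ := ((univ.filter fun v : V => Q v = 0).card : ℤ) with hN
  have h1 : ∑ f : F, ∑ v : V, χ (Q (f • v)) = q * N := by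
    rw [Finset.sum_comm]
    have h2 : ∀ v : V, ∑ f : F, χ (Q (f • v)) = if Q v = 0 then q else 0 := by
      intro v
      simp only [h.qsmul]
      exact h.sumsq (Q v)
    simp only [h2]
    rw [← Finset.sum_filter, Finset.sum_const, nsmul_eq_mul, mul_comm]
  have h3 : ∀ f : F, f ≠ 0 → ∑ v : V, χ (Q (f • v)) = SS Q χ := by
    intro f hf
    exact Fintype.sum_bijective (fun v : V => f • v)
      ((MulAction.bijective₀ hf)) _ _ (fun v => rfl)
  have h4 : ∑ f : F, ∑ v : V, χ (Q (f • v)) = (q - 1) * SS Q χ + Fintype.card V := by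
    rw [← Finset.add_sum_erase univ _ (mem_univ (0 : F))]
    have h5 : ∑ x ∈ univ.erase (0 : F), ∑ v : V, χ (Q (x • v)) = (q - 1) * SS Q χ := by
      rw [Finset.sum_congr rfl fun f hf => h3 f (Finset.ne_of_mem_erase hf), Finset.sum_const,
        Finset.card_erase_of_mem (mem_univ _), Finset.card_univ, nsmul_eq_mul,
        Nat.cast_sub Fintype.card_pos]
      simp [hq]
    rw [h5]
    simp only [zero_smul, h.zero, h.chi0, Finset.sum_const, Finset.card_univ, nsmul_eq_mul,
      mul_one]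
    ring
  have hq2 : 2 ≤ q := by
    rw [hq]
    exact_mod_cast Fintype.one_lt_card
  have h6 : (Fintype.card V : ℤ) < q * N := by
    rw [← h1, h4]
    nlinarith
  -- the opposite inequality
  have h7 : q * N ≤ Fintype.card V := by
    have h8 : Fintype.card F * (univ.filter fun v : V => Q v = 0).card ≤ Fintype.card V := by
      rw [← Finset.card_univ (α := F), ← Finset.card_product, ← Finset.card_univ (α := V)]
      refine Finset.card_le_card_of_injOn (fun p : F × V => p.1 • v0 + p.2)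
        (fun _ _ => mem_coe.mpr (mem_univ _)) ?_
      rintro ⟨f, v⟩ hfv ⟨g, w⟩ hgw hfg
      simp only [coe_product, coe_univ, coe_filter, Finset.mem_univ, true_and, Set.mem_prod,
        Set.mem_univ, Set.mem_ofPred_eq] at hfv hgw
      have h9 : f • v0 + v = g • v0 + w := hfg
      have h10 := congrArg (fun x => B x w0) h9
      simp only [map_add, map_smul, LinearMap.add_apply, LinearMap.smul_apply,
        smul_eq_mul] at h10
      rw [hcon v hfv w0, hcon w hgw w0, add_zero, add_zero] at h10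
      have h11 : f = g := mul_right_cancel₀ hvw h10
      rw [h11] at h9
      rw [h11, add_left_cancel h9]
    rw [hq, hN]
    exact_mod_cast h8
  linarith

/-- A form with positive sum on a space with `q ^ 3` elements. -/
lemma QD.lem5 (h : QD Q B χ) (hS : 0 < SS Q χ) (hc : Fintype.card V = Fintype.card F ^ 3) :
    ∃ r u : V, ∀ v, Q v = B v u * B v r := by
  classical
  by_cases hB : ∀ v w, B v w = 0
  · refine ⟨0, 0, fun v => ?_⟩
    rw [h.lem1 hB hS v, map_zero, mul_zero]
  push Not at hB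
  obtain ⟨v0, w0, hvw⟩ := hB
  obtain ⟨r, hr, w, hw⟩ := h.lem3 hS v0 w0 hvw
  obtain ⟨u0, h1⟩ : ∃ u0, B r u0 = 1 :=
    ⟨(B r w)⁻¹ • w, by rw [map_smul, smul_eq_mul, inv_mul_cancel₀ hw]⟩
  obtain ⟨u, hu⟩ : ∃ u, u = u0 + Q u0 • r := ⟨_, rfl⟩
  have hru : B r u = 1 := by
    rw [hu, map_add, map_smul, h.alt, h1]
    simp
  have hQu : Q u = 0 := by
    rw [hu, h.qadd, h.qsmul, hr, map_smul, h.symm u0 r, h1]
    have h2 : (2 : F) = 0 := CharTwo.two_eq_zero
    simp only [smul_eq_mul]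
    linear_combination Q u0 * h2
  have hsum := h.split_sum hr hQu hru
  have hcard := h.split_card hr hQu hru
  set W := orth2 B r u with hW
  have hpos : 0 < SS (fun w : W => Q w.1) χ := by
    rw [hsum] at hS
    have : (0 : ℤ) < Fintype.card F := by exact_mod_cast Fintype.card_pos
    exact pos_of_mul_pos_right hS this.le
  have hqpos : 0 < Fintype.card F := Fintype.card_pos
  have hWc : Fintype.card W = Fintype.card F := by
    have h2 : Fintype.card F ^ 2 * Fintype.card W = Fintype.card F ^ 2 * Fintype.card F := by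
      rw [← hcard, hc]; ring
    exact Nat.eq_of_mul_eq_mul_left (by positivity) h2
  have hBW : ∀ v w : W, B v.1 w.1 = 0 := by
    by_contra hcon
    push Not at hcon
    obtain ⟨v1, w1, hvw1⟩ := hcon
    have hinj : Function.Injective (fun p : F × F => p.1 • v1 + p.2 • w1 : F × F → W) := by
      rintro ⟨a, b⟩ ⟨c, d⟩ hp
      have h3 : a • v1 + b • w1 = c • v1 + d • w1 := hp
      have h4 : a • v1.1 + b • w1.1 = c • v1.1 + d • w1.1 := by
        have := congrArg Subtype.val h3
        simpa using this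
      have h5 := congrArg (fun x => B x w1.1) h4
      have h6 := congrArg (fun x => B x v1.1) h4
      simp only [map_add, map_smul, LinearMap.add_apply, LinearMap.smul_apply,
        smul_eq_mul, h.alt, mul_zero, add_zero, zero_add] at h5 h6
      rw [h.symm w1.1 v1.1] at h6
      rw [mul_right_cancel₀ hvw1 h5, mul_right_cancel₀ hvw1 h6]
    have h7 := Fintype.card_le_of_injective _ hinj
    rw [Fintype.card_prod, hWc] at h7
    have h8 : 1 < Fintype.card F := Fintype.one_lt_card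
    nlinarith
  have hQW : ∀ w : W, Q w.1 = 0 := (h.restrict W).lem1 (fun v w => hBW v w) hpos
  refine ⟨r, u, fun v => ?_⟩
  have h9 := h.decomp hru v
  have h10 := h.split_apply hr hQu hru (B v u) (B v r) _ h9
  have h11 : B v u • r + B v r • u + (v - B v u • r - B v r • u) = v := by abel
  rw [h11] at h10
  rw [h10.1, hQW ⟨_, h9⟩, add_zero]

/-- The classification of the five-dimensional forms with positive sum. -/
theorem QD.main (h : QD Q B χ) (hsq : ∀ x, χ (x ^ 2) = χ x)
    (hone : ∀ x, χ x = 1 → ∃ y, y ^ 2 + y = x)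
    (hS : 0 < SS Q χ) (hc : Fintype.card V = Fintype.card F ^ 5) (o : V) (ho : Q o = 1) :
    ∃ e r u : V, B e o = 1 ∧ B r o = 0 ∧ B u o = 0 ∧
      ∀ c, Q c = B c (e + o) * B c e + B c u * B c r := by
  classical
  have h2 : (2 : F) = 0 := CharTwo.two_eq_zero
  -- step (a)
  have ha : ∃ c : V, B c o = 1 ∧ χ (Q c) = 1 := by
    by_contra hcon
    push Not at hcon
    set q : ℤ := (Fintype.card F : ℤ) with hq
    have hqpos : 0 < q := by rw [hq]; exact_mod_cast Fintype.card_pos
    have h3 : ∑ f : F, ∑ c : V, χ (Q (c + f • o)) = q * SS Q χ := by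
      have h4 : ∀ f : F, ∑ c : V, χ (Q (c + f • o)) = SS Q χ := fun f =>
        Fintype.sum_equiv (Equiv.addRight (f • o)) _ _ (fun f => rfl)
      simp only [h4, Finset.sum_const, Finset.card_univ, nsmul_eq_mul, hq]
    have h5 : ∀ c : V, ∑ f : F, χ (Q (c + f • o)) ≤ 0 := by
      intro c
      have h6 : ∀ f : F, χ (Q (c + f • o)) = χ (Q c) * χ (f * (1 + B c o)) := by
        intro f
        rw [h.qadd, h.qsmul, ho, map_smul, smul_eq_mul, h.cadd, h.cadd, mul_one, hsq,
          mul_add, mul_one, h.cadd]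
        ring
      simp only [h6]
      rw [← Finset.mul_sum, h.summul]
      split_ifs with h7
      · have h8 : B c o = 1 := by linear_combination h7 - h2
        have h9 := hcon c h8
        rcases h.pm (Q c) with h10 | h10
        · exact absurd h10 h9
        · rw [h10]; linarith
      · simp
    rw [Finset.sum_comm] at h3
    have h11 : ∑ c : V, ∑ f : F, χ (Q (c + f • o)) ≤ 0 := Finset.sum_nonpos fun c _ => h5 c
    have h12 : 0 < q * SS Q χ := mul_pos hqpos hS
    linarith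
  obtain ⟨c0, hc0, hc1⟩ := ha
  obtain ⟨y, hy⟩ := hone _ hc1
  set e : V := c0 + y • o with he
  have hoo : B o o = 0 := h.alt o
  have heo : B e o = 1 := by
    rw [he, map_add, map_smul, LinearMap.add_apply, LinearMap.smul_apply, hc0, hoo]
    simp
  have hQe : Q e = 0 := by
    rw [he, h.qadd, h.qsmul, ho, map_smul, smul_eq_mul, hc0, ← hy]
    linear_combination (y ^ 2 + y) * h2
  set b : V := e + o with hb
  have hQb : Q b = 0 := by
    rw [hb, h.qadd, hQe, ho, heo]
    linear_combination h2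
  have heb : B e b = 1 := by
    rw [hb, map_add, h.alt, heo, zero_add]
  have hsum := h.split_sum hQe hQb heb
  have hcard := h.split_card hQe hQb heb
  set W := orth2 B e b with hW
  have hpos : 0 < SS (fun w : W => Q w.1) χ := by
    rw [hsum] at hS
    have : (0 : ℤ) < Fintype.card F := by exact_mod_cast Fintype.card_pos
    exact pos_of_mul_pos_right hS this.le
  have hqpos : 0 < Fintype.card F := Fintype.card_pos
  have hWc : Fintype.card W = Fintype.card F ^ 3 := by
    have h3 : Fintype.card F ^ 2 * Fintype.card W = Fintype.card F ^ 2 * Fintype.card F ^ 3 := by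
      rw [← hcard, hc]; ring
    exact Nat.eq_of_mul_eq_mul_left (by positivity) h3
  obtain ⟨r, u, hru⟩ := (h.restrict W).lem5 hpos hWc
  have hWo : ∀ w : W, B w.1 e = 0 ∧ B w.1 b = 0 ∧ B w.1 o = 0 := by
    intro w
    obtain ⟨h3, h4⟩ := (mem_orth2 e b w.1).mp w.2
    refine ⟨h3, h4, ?_⟩
    rw [hb, map_add, h3, zero_add] at h4
    exact h4
  refine ⟨e, r.1, u.1, heo, (hWo r).2.2, (hWo u).2.2, fun c => ?_⟩
  have h9 := h.decomp heb c
  have h10 := h.split_apply hQe hQb heb (B c b) (B c e) _ h9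
  have h11 : B c b • e + B c e • b + (c - B c b • e - B c e • b) = c := by abel
  rw [h11] at h10
  have h12 : Q (c - B c b • e - B c e • b) = B (c - B c b • e - B c e • b) u.1 *
      B (c - B c b • e - B c e • b) r.1 := hru ⟨_, h9⟩
  rw [h10.1, h12]
  simp only [map_sub, map_smul, LinearMap.sub_apply, LinearMap.smul_apply, smul_eq_mul]
  rw [h.symm e u.1, h.symm b u.1, h.symm e r.1, h.symm b r.1, (hWo r).1, (hWo r).2.1,
    (hWo u).1, (hWo u).2.1]
  ring

end Abs

section Conc

open Pool.Agent.R793.MR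

variable {K : Type} [Field K] [Fintype K] [DecidableEq K] [CharP K 2] (σ : K ≃+* K)

/-- The fixed field. -/
def Fs : Subfield K where
  carrier := {x | σ x = x}
  mul_mem' := by
    intro a b ha hb
    show σ (a * b) = a * b
    rw [map_mul, show σ a = a from ha, show σ b = b from hb]
  one_mem' := map_one σ
  add_mem' := by
    intro a b ha hb
    show σ (a + b) = a + b
    rw [map_add, show σ a = a from ha, show σ b = b from hb]
  zero_mem' := map_zero σ
  neg_mem' := by
    intro a ha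
    show σ (-a) = -a
    rw [map_neg, show σ a = a from ha]
  inv_mem' := by
    intro a ha
    show σ a⁻¹ = a⁻¹
    rw [map_inv₀, show σ a = a from ha]

lemma mem_Fs {x : K} : x ∈ Fs σ ↔ σ x = x := Iff.rfl

/-- The space `V`. -/
def Vs : Submodule (Fs σ) K where
  carrier := {c | σ (c + σ (σ (σ (σ c)))) = c + σ (σ (σ (σ c)))}
  add_mem' := by
    intro a b ha hb
    have ha' : σ (a + σ (σ (σ (σ a)))) = a + σ (σ (σ (σ a))) := ha
    have hb' : σ (b + σ (σ (σ (σ b)))) = b + σ (σ (σ (σ b))) := hb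
    show σ (a + b + σ (σ (σ (σ (a + b))))) = a + b + σ (σ (σ (σ (a + b))))
    simp only [map_add] at ha' hb' ⊢
    linear_combination ha' + hb'
  zero_mem' := by simp
  smul_mem' := by
    intro f c hc
    have hc' : σ (c + σ (σ (σ (σ c)))) = c + σ (σ (σ (σ c))) := hc
    have hf : σ f.1 = f.1 := f.2
    show σ (f.1 * c + σ (σ (σ (σ (f.1 * c))))) = f.1 * c + σ (σ (σ (σ (f.1 * c))))
    simp only [map_add, map_mul, hf] at hc' ⊢
    linear_combination f.1 * hc'

lemma mem_Vs {c : K} : c ∈ Vs σ ↔ σ (c + σ (σ (σ (σ c)))) = c + σ (σ (σ (σ c))) := Iff.rfl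

/-- Explicit polar form. -/
def pf (l0 l1 l2 l3 x y m0 m1 m2 m3 c c' n0 n1 n2 n3 d d' : K) : K :=
  l0 * (m0 * n1 + n0 * m1) + l1 * (m1 * n2 + n1 * m2) + l2 * (m2 * n3 + n2 * m3) +
    (l3 + 1) * (m0 * n3 + n0 * m3) + x * (m0 * n2 + n0 * m2) + y * (m1 * n3 + n1 * m3) +
    (c * d' + d * c')

variable (lam x : K)

lemma BB_eq (c d : K) : BB σ lam x c d =
    pf lam (σ lam) (σ (σ lam)) (σ (σ (σ lam))) x (σ x) (c + σ c) (σ c + σ (σ c))
      (σ (σ c) + σ (σ (σ c))) (σ (σ (σ c)) + σ (σ (σ (σ c)))) c (σ (σ (σ (σ c))))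
      (d + σ d) (σ d + σ (σ d))
      (σ (σ d) + σ (σ (σ d))) (σ (σ (σ d)) + σ (σ (σ (σ d)))) d (σ (σ (σ (σ d)))) := by
  have h2 : (2 : K) = 0 := CharTwo.two_eq_zero
  have h3 : QQ σ lam x (c + d) = QQ σ lam x c + QQ σ lam x d +
    pf lam (σ lam) (σ (σ lam)) (σ (σ (σ lam))) x (σ x) (c + σ c) (σ c + σ (σ c))
      (σ (σ c) + σ (σ (σ c))) (σ (σ (σ c)) + σ (σ (σ (σ c)))) c (σ (σ (σ (σ c))))
      (d + σ d) (σ d + σ (σ d))
      (σ (σ d) + σ (σ (σ d))) (σ (σ (σ d)) + σ (σ (σ (σ d)))) d (σ (σ (σ (σ d)))) := by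
    simp only [QQ, qf, pf, map_add]
    ring
  rw [BB, h3]
  linear_combination (QQ σ lam x c + QQ σ lam x d) * h2

lemma BB_symm (c d : K) : BB σ lam x c d = BB σ lam x d c := by
  rw [BB, BB, add_comm c d]; ring

lemma BB_add (c c' d : K) : BB σ lam x (c + c') d = BB σ lam x c d + BB σ lam x c' d := by
  rw [BB_eq, BB_eq, BB_eq]
  simp only [pf, map_add]
  ring

lemma BB_smul (f c d : K) (hf : σ f = f) : BB σ lam x (f * c) d = f * BB σ lam x c d := by
  rw [BB_eq, BB_eq]
  simp only [pf, map_mul, hf]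
  ring

lemma BB_self (c : K) : BB σ lam x c c = 0 := by
  have h2 : (2 : K) = 0 := CharTwo.two_eq_zero
  have h3 : QQ σ lam x (c + c) = 4 * QQ σ lam x c := by
    simp only [QQ, qf, map_add]
    ring
  rw [BB, h3]
  linear_combination 3 * QQ σ lam x c * h2

lemma BB_one (c : K) : BB σ lam x c 1 = c + σ (σ (σ (σ c))) := by
  have h2 : (2 : K) = 0 := CharTwo.two_eq_zero
  rw [BB_eq]
  simp only [pf, map_one]
  linear_combination (lam * ((c + σ c) + (σ c + σ (σ c))) +
    σ lam * ((σ c + σ (σ c)) + (σ (σ c) + σ (σ (σ c)))) +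
    σ (σ lam) * ((σ (σ c) + σ (σ (σ c))) + (σ (σ (σ c)) + σ (σ (σ (σ c))))) +
    (σ (σ (σ lam)) + 1) * ((c + σ c) + (σ (σ (σ c)) + σ (σ (σ (σ c))))) +
    x * ((c + σ c) + (σ (σ c) + σ (σ (σ c)))) +
    σ x * ((σ c + σ (σ c)) + (σ (σ (σ c)) + σ (σ (σ (σ c)))))) * h2

lemma QQ_one : QQ σ lam x 1 = 1 := by
  have h2 : (2 : K) = 0 := CharTwo.two_eq_zero
  simp only [QQ, qf, map_one]
  linear_combination (2 * (lam + σ lam + σ (σ lam) + (σ (σ (σ lam)) + 1) + x + σ x)) * h2

lemma QQ_smul (f c : K) (hf : σ f = f) : QQ σ lam x (f * c) = f ^ 2 * QQ σ lam x c := by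
  simp only [QQ, qf, map_mul, hf]
  ring

lemma QQ_fix (hlam : σ (σ (σ (σ lam))) = lam) (hx : σ (σ x) = x + 1) (c : K)
    (hc : c ∈ Vs σ) : σ (QQ σ lam x c) = QQ σ lam x c := by
  have h2 : (2 : K) = 0 := CharTwo.two_eq_zero
  have h4 : (4 : K) = 0 := by linear_combination 2 * h2
  rw [mem_Vs] at hc
  simp only [map_add] at hc
  have h5 : σ (σ (σ (σ (σ c)))) = c + σ (σ (σ (σ c))) + σ c := by
    linear_combination hc - σ c * h2
  refine CharTwo.add_eq_zero.mp ?_
  simp only [QQ, qf, map_add, map_mul, map_one, hlam, hx, h5]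
  ring_nf
  simp only [h2, h4, mul_zero, add_zero]

/-- The polar form as a bilinear map. -/
noncomputable def Bs (hlam : σ (σ (σ (σ lam))) = lam) (hx : σ (σ x) = x + 1) :
    Vs σ →ₗ[Fs σ] Vs σ →ₗ[Fs σ] Fs σ :=
  LinearMap.mk₂ (Fs σ)
    (fun v w : Vs σ => (⟨BB σ lam x v.1 w.1, by
      rw [mem_Fs, BB, map_add, map_add, QQ_fix σ lam x hlam hx _ (add_mem v.2 w.2),
        QQ_fix σ lam x hlam hx _ v.2, QQ_fix σ lam x hlam hx _ w.2]⟩ : Fs σ))
    (fun v v' w => Subtype.ext (BB_add σ lam x v.1 v'.1 w.1))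
    (fun f v w => Subtype.ext (BB_smul σ lam x f.1 v.1 w.1 f.2))
    (fun v w w' => Subtype.ext (by
      show BB σ lam x v.1 (w.1 + w'.1) = BB σ lam x v.1 w.1 + BB σ lam x v.1 w'.1
      rw [BB_symm, BB_add, BB_symm σ lam x w.1, BB_symm σ lam x w'.1]))
    (fun f v w => Subtype.ext (by
      show BB σ lam x v.1 (f.1 * w.1) = f.1 * BB σ lam x v.1 w.1
      rw [BB_symm, BB_smul σ lam x f.1 w.1 v.1 f.2, BB_symm]))

end Conc

open Pool.Agent.R793.MR in
theorem c1 (hI : StmInd) : StmC1 := by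
  intro K _ _ _ _ σ χ hχ lam hlam x hx hS
  have hx' : σ (σ x) = x + 1 := by
    simpa [XX] using hx
  obtain ⟨_, hcard, _⟩ := hI K σ hχ.h8 hχ.h4
  classical
  have hmemF : ∀ y : K, y ∈ FF σ ↔ y ∈ Fs σ := fun y => by simp [FF, mem_Fs]
  have hmemV : ∀ y : K, y ∈ VV σ ↔ y ∈ Vs σ := fun y => by simp [VV, mem_Vs]
  let : Fintype (Fs σ) := Fintype.ofFinite _
  let : Fintype (Vs σ) := Fintype.ofFinite _
  have : CharP (Fs σ) 2 := inferInstance
  have hF : Fintype.card (Fs σ) = (FF σ).card := Fintype.card_of_subtype _ hmemF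
  have hV : Fintype.card (Vs σ) = (VV σ).card := Fintype.card_of_subtype _ hmemV
  set Q : Vs σ → Fs σ := fun v => ⟨QQ σ lam x v.1, QQ_fix σ lam x hlam hx' v.1 v.2⟩ with hQ
  set χ' : Fs σ → ℤ := fun f => χ f.1 with hχ'
  have hQD : QD Q (Bs σ lam x hlam hx') χ' :=
    { qadd := fun v w => Subtype.ext (by
        have h2 : (2 : K) = 0 := CharTwo.two_eq_zero
        show QQ σ lam x (v.1 + w.1) = QQ σ lam x v.1 + QQ σ lam x w.1 + BB σ lam x v.1 w.1
        rw [BB]
        linear_combination - (QQ σ lam x v.1 + QQ σ lam x w.1) * h2)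
      qsmul := fun f v => Subtype.ext (QQ_smul σ lam x f.1 v.1 f.2)
      alt := fun v => Subtype.ext (BB_self σ lam x v.1)
      pm := fun f => hχ.pm f.1 f.2
      cadd := fun f g => hχ.add f.1 g.1 f.2 g.2
      neg := by
        obtain ⟨y, hy, hy2⟩ := hχ.neg
        exact ⟨⟨y, hy⟩, hy2⟩ }
  have hsum : SS Q χ' = ∑ d ∈ VV σ, χ (QQ σ lam x d) := by
    rw [Finset.sum_subtype (VV σ) hmemV]
    rfl
  have ho : (1 : K) ∈ Vs σ := by
    rw [mem_Vs]; simp
  obtain ⟨e, r, u, he, hr, hu, hall⟩ := hQD.main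
    (fun f => by
      show χ ((f ^ 2 : Fs σ) : K) = χ f.1
      exact hχ.sq f.1 f.2)
    (fun f hf => by
      obtain ⟨y, hy, hy2⟩ := (hχ.one f.1 f.2).mp hf
      exact ⟨⟨y, hy⟩, Subtype.ext hy2⟩)
    (by rw [hsum]; exact hS) (by rw [hV, hF, hcard]) ⟨1, ho⟩ (Subtype.ext (QQ_one σ lam x))
  have he' : BB σ lam x e.1 1 = 1 := congrArg Subtype.val he
  have hr' : BB σ lam x r.1 1 = 0 := congrArg Subtype.val hr
  have hu' : BB σ lam x u.1 1 = 0 := congrArg Subtype.val hu
  rw [BB_one] at he' hr' hu'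
  refine ⟨e.1, r.1, u.1, he', (CharTwo.add_eq_zero.mp hr').symm, (CharTwo.add_eq_zero.mp hu').symm,
    fun c hc => ?_⟩
  exact congrArg Subtype.val (hall ⟨c, (hmemV c).mp hc⟩)

end Pool.Agent.R359.MR
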